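import Mathlib

/-!
# A forcing notion adding a locally compact scattered topology on the successor of the continuum

The conditions are countable; the generic object assigns to each point `a` of the initial ordinal
of `𝔠⁺` a set `U a` of points `≤ a`.
-/

set_option autoImplicit false

namespace Pool.Agent.Helper332.CPB

open Cardinal Set

/-- The initial ordinal of the successor cardinal of the continuum, as a well-ordered set. -/
abbrev Kc : Type := (Order.succ (𝔠 : Cardinal.{0})).ord.ToType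

/-- The conditions: a countable set `A` of points, and for each `a ∈ A` a set `U a ⊆ A` of points
`≤ a` containing `a`, such that for `a < b` in `A` the set `U a \ U b` (if `a ∈ U b`), or
`U a ∩ U b` (if `a ∉ U b`), is covered by finitely many sets `U c` with `c < a`. -/
structure Cond where
  A : Set Kc
  U : Kc → Set Kc
  cnt : A.Countable
  sub : ∀ a ∈ A, ∀ y ∈ U a, y ∈ A ∧ y ≤ a
  self : ∀ a ∈ A, a ∈ U a
  cov : ∀ a ∈ A, ∀ b ∈ A, a < b → ∃ F : Finset Kc, (∀ c ∈ F, c ∈ A ∧ c < a) ∧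
    (a ∈ U b → ∀ y ∈ U a, y ∉ U b → ∃ c ∈ F, y ∈ U c) ∧
    (a ∉ U b → ∀ y ∈ U a, y ∈ U b → ∃ c ∈ F, y ∈ U c)

/-- `q` is stronger than `p`: it has more points, the sets `U a` have the same old points, and each
point of `q` either lies in no old set, or lies in the same old sets as some old point. -/
instance : Preorder Cond where
  le q p := p.A ⊆ q.A ∧ (∀ a ∈ p.A, ∀ x ∈ p.A, (x ∈ q.U a ↔ x ∈ p.U a)) ∧
    ∀ y ∈ q.A, (∀ a ∈ p.A, y ∉ q.U a) ∨ ∃ x ∈ p.A, ∀ a ∈ p.A, (y ∈ q.U a ↔ x ∈ p.U a)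
  le_refl p := ⟨subset_rfl, fun _ _ _ _ => Iff.rfl, fun y hy => Or.inr ⟨y, hy, fun _ _ => Iff.rfl⟩⟩
  le_trans r q p h h' := by
    refine ⟨h'.1.trans h.1, fun a ha x hx => ?_, fun y hy => ?_⟩
    · exact (h.2.1 a (h'.1 ha) x (h'.1 hx)).trans (h'.2.1 a ha x hx)
    · rcases h.2.2 y hy with h1 | ⟨x, hx, h1⟩
      · exact Or.inl fun a ha => h1 a (h'.1 ha)
      · rcases h'.2.2 x hx with h2 | ⟨z, hz, h2⟩
        · exact Or.inl fun a ha h3 => h2 a ha ((h1 a (h'.1 ha)).1 h3)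
        · exact Or.inr ⟨z, hz, fun a ha => (h1 a (h'.1 ha)).trans (h2 a ha)⟩

theorem le_def {q p : Cond} : q ≤ p ↔ p.A ⊆ q.A ∧
    (∀ a ∈ p.A, ∀ x ∈ p.A, (x ∈ q.U a ↔ x ∈ p.U a)) ∧
    ∀ y ∈ q.A, (∀ a ∈ p.A, y ∉ q.U a) ∨ ∃ x ∈ p.A, ∀ a ∈ p.A, (y ∈ q.U a ↔ x ∈ p.U a) := Iff.rfl

end Pool.Agent.Helper332.CPB
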