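import Mathlib
import Pool.Agent.Helper332.CPB.Defs

set_option autoImplicit false

namespace Pool.Agent.Helper332.CPB

open Cardinal Set


theorem amalg (q q' : Cond) (f f' : ℕ → Kc) (hf : Set.range f = q.A) (hf' : Set.range f' = q'.A)
    (d d' : Kc) (h1 : ∀ m n, (f m < f n ↔ f' m < f' n))
    (h2 : ∀ m n, (f m ∈ q.U (f n) ↔ f' m ∈ q'.U (f' n)))
    (h3 : ∀ n, f n < d → f' n = f n) (h3' : ∀ n, d ≤ f n → d ≤ f' n)
    (h4 : ∀ n, f n < d ∨ d' ≤ f n) (h5 : ∀ n, f' n < d') :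
    ∃ s : Cond, s ≤ q ∧ s ≤ q' ∧ ∀ m n, (f' m ∈ s.U (f n) ↔ f m ∈ q.U (f n)) := by
  classical
  -- basic facts
  have hle : ∀ m n, f m ≤ f n ↔ f' m ≤ f' n := by
    intro m n
    rw [← not_lt, ← not_lt, h1]
  have hE : ∀ m n, f m = f n ↔ f' m = f' n := by
    intro m n
    rw [le_antisymm_iff, le_antisymm_iff, hle, hle]
  have h0 : ∀ m n, f m = f' n → f m < d ∧ f n = f m := by
    intro m n h
    have hmd : f m < d := by
      rcases h4 m with h6 | h6
      · exact h6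
      · exact absurd (h6.trans_eq h) (not_le.mpr (h5 n))
    have hnd : f n < d := by
      by_contra h7
      exact absurd (h3' n (not_lt.mp h7)) (not_le.mpr (h ▸ hmd))
    exact ⟨hmd, by rw [h, h3 n hnd]⟩
  have hfA : ∀ n, f n ∈ q.A := fun n => hf ▸ Set.mem_range_self n
  have hfA' : ∀ n, f' n ∈ q'.A := fun n => hf' ▸ Set.mem_range_self n
  have hcle : ∀ m n, f m ∈ q.U (f n) → f m ≤ f n := fun m n h => (q.sub _ (hfA n) _ h).2
  -- congruence
  have hcong : ∀ m m1 n n1, f m = f m1 → f n = f n1 → f m ∈ q.U (f n) → f m1 ∈ q.U (f n1) := by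
    intro m m1 n n1 hm hn h
    rwa [← hm, ← hn]
  let SU : Kc → Set Kc := fun a => {y | ∃ m n, f m ∈ q.U (f n) ∧
    ((a = f n ∧ (y = f m ∨ y = f' m)) ∨ (a = f' n ∧ y = f' m))}
  have U1 : ∀ y k, y ∈ SU (f k) ↔ ∃ m, f m ∈ q.U (f k) ∧ (y = f m ∨ y = f' m) := by
    intro y k
    constructor
    · rintro ⟨m, n, hc, ⟨hk, hy⟩ | ⟨hk, hy⟩⟩
      · exact ⟨m, hcong _ _ _ _ rfl hk.symm hc, hy⟩
      · exact ⟨m, hcong _ _ _ _ rfl (h0 _ _ hk).2 hc, Or.inr hy⟩
    · rintro ⟨m, hc, hy⟩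
      exact ⟨m, k, hc, Or.inl ⟨rfl, hy⟩⟩
  have U2 : ∀ y k, y ∈ SU (f' k) ↔ ∃ m, f m ∈ q.U (f k) ∧ y = f' m := by
    intro y k
    constructor
    · rintro ⟨m, n, hc, ⟨hk, hy⟩ | ⟨hk, hy⟩⟩
      · obtain ⟨hnd, hkn⟩ := h0 n k hk.symm
        refine ⟨m, hcong _ _ _ _ rfl hkn.symm hc, ?_⟩
        rcases hy with hy | hy
        · rw [hy, h3 m ((hcle _ _ hc).trans_lt hnd)]
        · exact hy
      · exact ⟨m, hcong _ _ _ _ rfl ((hE _ _).mpr hk.symm) hc, hy⟩
    · rintro ⟨m, hc, hy⟩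
      exact ⟨m, k, hc, Or.inr ⟨rfl, hy⟩⟩
  -- two indices of the same point
  have hR0 : ∀ y m m1, (y = f m ∨ y = f' m) → (y = f m1 ∨ y = f' m1) → f m = f m1 := by
    intro y m m1 ha hb
    rcases ha with ha | ha <;> rcases hb with hb | hb
    · exact ha.symm.trans hb
    · exact (h0 m m1 (ha.symm.trans hb)).2.symm
    · exact (h0 m1 m (hb.symm.trans ha)).2
    · exact (hE _ _).mpr (ha.symm.trans hb)
  have R1 : ∀ y m k, (y = f m ∨ y = f' m) → (y ∈ SU (f k) ↔ f m ∈ q.U (f k)) := by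
    intro y m k hy
    rw [U1]
    constructor
    · rintro ⟨m1, hc, hy1⟩
      exact hcong _ _ _ _ (hR0 y m1 m hy1 hy) rfl hc
    · intro hc
      exact ⟨m, hc, hy⟩
  have R2 : ∀ m k, (f' m ∈ SU (f' k) ↔ f m ∈ q.U (f k)) := by
    intro m k
    rw [U2]
    constructor
    · rintro ⟨m1, hc, hy1⟩
      exact hcong _ _ _ _ ((hE _ _).mpr hy1.symm) rfl hc
    · intro hc
      exact ⟨m, hc, rfl⟩
  have hidx : ∀ c : Kc, ∃ l, c ∈ q.A → f l = c := by
    intro c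
    by_cases hc : c ∈ q.A
    · rw [← hf] at hc
      obtain ⟨l, hl⟩ := hc
      exact ⟨l, fun _ => hl⟩
    · exact ⟨0, fun h => absurd h hc⟩
  choose l hl using hidx
  -- case 2
  have case2 : ∀ k n, f' k < f' n → ∃ F : Finset Kc, (∀ c ∈ F, c ∈ q.A ∪ q'.A ∧ c < f' k) ∧
      (f' k ∈ SU (f' n) → ∀ y ∈ SU (f' k), y ∉ SU (f' n) → ∃ c ∈ F, y ∈ SU c) ∧
      (f' k ∉ SU (f' n) → ∀ y ∈ SU (f' k), y ∈ SU (f' n) → ∃ c ∈ F, y ∈ SU c) := by
    intro k n hkn
    obtain ⟨F, hF, hF1, hF2⟩ := q'.cov (f' k) (hfA' k) (f' n) (hfA' n) hkn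
    refine ⟨F, fun c hc => ⟨Or.inr (hF c hc).1, (hF c hc).2⟩, ?_, ?_⟩
    · intro ha y hy hyn
      obtain ⟨m, hm, rfl⟩ := (U2 _ _).mp hy
      rw [R2] at hyn ha
      obtain ⟨c, hc, hyc⟩ := hF1 ((h2 _ _).mp ha) (f' m) ((h2 _ _).mp hm) (fun h => hyn ((h2 _ _).mpr h))
      refine ⟨c, hc, ?_⟩
      have hcA := (hF c hc).1
      rw [← hf'] at hcA
      obtain ⟨j, rfl⟩ := hcA
      rw [R2]
      exact (h2 _ _).mpr hyc
    · intro ha y hy hyn
      obtain ⟨m, hm, rfl⟩ := (U2 _ _).mp hy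
      rw [R2] at hyn ha
      obtain ⟨c, hc, hyc⟩ := hF2 (fun h => ha ((h2 _ _).mpr h)) (f' m) ((h2 _ _).mp hm) ((h2 _ _).mp hyn)
      refine ⟨c, hc, ?_⟩
      have hcA := (hF c hc).1
      rw [← hf'] at hcA
      obtain ⟨j, rfl⟩ := hcA
      rw [R2]
      exact (h2 _ _).mpr hyc
  have case1 : ∀ k n, f k < f n → ∃ F : Finset Kc, (∀ c ∈ F, c ∈ q.A ∪ q'.A ∧ c < f k) ∧
      (f k ∈ SU (f n) → ∀ y ∈ SU (f k), y ∉ SU (f n) → ∃ c ∈ F, y ∈ SU c) ∧
      (f k ∉ SU (f n) → ∀ y ∈ SU (f k), y ∈ SU (f n) → ∃ c ∈ F, y ∈ SU c) := by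
    intro k n hkn
    obtain ⟨F, hF, hF1, hF2⟩ := q.cov (f k) (hfA k) (f n) (hfA n) hkn
    refine ⟨F, fun c hc => ⟨Or.inl (hF c hc).1, (hF c hc).2⟩, ?_, ?_⟩
    · intro ha y hy hyn
      obtain ⟨m, hm, hym⟩ := (U1 _ _).mp hy
      rw [R1 _ _ _ hym] at hyn
      rw [R1 _ _ _ (Or.inl rfl)] at ha
      obtain ⟨c, hc, hyc⟩ := hF1 ha (f m) hm hyn
      refine ⟨c, hc, ?_⟩
      have hcA := (hF c hc).1
      rw [← hf] at hcA
      obtain ⟨j, rfl⟩ := hcA
      rw [R1 _ _ _ hym]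
      exact hyc
    · intro ha y hy hyn
      obtain ⟨m, hm, hym⟩ := (U1 _ _).mp hy
      rw [R1 _ _ _ hym] at hyn
      rw [R1 _ _ _ (Or.inl rfl)] at ha
      obtain ⟨c, hc, hyc⟩ := hF2 ha (f m) hm hyn
      refine ⟨c, hc, ?_⟩
      have hcA := (hF c hc).1
      rw [← hf] at hcA
      obtain ⟨j, rfl⟩ := hcA
      rw [R1 _ _ _ hym]
      exact hyc
  have case3 : ∀ k n, f' k < f n → ∃ F : Finset Kc, (∀ c ∈ F, c ∈ q.A ∪ q'.A ∧ c < f' k) ∧
      (f' k ∈ SU (f n) → ∀ y ∈ SU (f' k), y ∉ SU (f n) → ∃ c ∈ F, y ∈ SU c) ∧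
      (f' k ∉ SU (f n) → ∀ y ∈ SU (f' k), y ∈ SU (f n) → ∃ c ∈ F, y ∈ SU c) := by
    intro k n hkn
    rcases lt_trichotomy (f k) (f n) with h | h | h
    · obtain ⟨F, hF, hF1, hF2⟩ := q.cov (f k) (hfA k) (f n) (hfA n) h
      refine ⟨F.image (fun c => f' (l c)), ?_, ?_, ?_⟩
      · intro c hc
        obtain ⟨c0, hc0, rfl⟩ := Finset.mem_image.mp hc
        refine ⟨Or.inr (hfA' _), ?_⟩
        rw [← h1, hl c0 (hF c0 hc0).1]
        exact (hF c0 hc0).2
      · intro ha y hy hyn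
        obtain ⟨m, hm, rfl⟩ := (U2 _ _).mp hy
        rw [R1 _ m _ (Or.inr rfl)] at hyn
        rw [R1 _ k _ (Or.inr rfl)] at ha
        obtain ⟨c, hc, hyc⟩ := hF1 ha (f m) hm hyn
        refine ⟨f' (l c), Finset.mem_image_of_mem _ hc, ?_⟩
        rw [R2, hl c (hF c hc).1]
        exact hyc
      · intro ha y hy hyn
        obtain ⟨m, hm, rfl⟩ := (U2 _ _).mp hy
        rw [R1 _ m _ (Or.inr rfl)] at hyn
        rw [R1 _ k _ (Or.inr rfl)] at ha
        obtain ⟨c, hc, hyc⟩ := hF2 ha (f m) hm hyn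
        refine ⟨f' (l c), Finset.mem_image_of_mem _ hc, ?_⟩
        rw [R2, hl c (hF c hc).1]
        exact hyc
    · refine ⟨∅, by simp, ?_, ?_⟩
      · intro _ y hy hyn
        obtain ⟨m, hm, rfl⟩ := (U2 _ _).mp hy
        rw [R1 _ m _ (Or.inr rfl)] at hyn
        exact absurd (hcong _ _ _ _ rfl h hm) hyn
      · intro ha
        rw [R1 _ k _ (Or.inr rfl)] at ha
        exact absurd (hcong _ _ _ _ rfl h (q.self _ (hfA k))) ha
    · have hnc : f k ∉ q.U (f n) := fun hc => absurd (hcle _ _ hc) (not_le.mpr h)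
      by_cases hnk : f n ∈ q.U (f k)
      · refine ⟨{f' n}, ?_, ?_, ?_⟩
        · intro c hc
          rw [Finset.mem_singleton] at hc
          subst hc
          exact ⟨Or.inr (hfA' _), (h1 _ _).mp h⟩
        · intro ha
          rw [R1 _ k _ (Or.inr rfl)] at ha
          exact absurd ha hnc
        · intro _ y hy hyn
          obtain ⟨m, hm, rfl⟩ := (U2 _ _).mp hy
          rw [R1 _ m _ (Or.inr rfl)] at hyn
          exact ⟨f' n, Finset.mem_singleton_self _, (R2 _ _).mpr hyn⟩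
      · obtain ⟨F, hF, hF1, hF2⟩ := q.cov (f n) (hfA n) (f k) (hfA k) h
        refine ⟨F.image (fun c => f' (l c)), ?_, ?_, ?_⟩
        · intro c hc
          obtain ⟨c0, hc0, rfl⟩ := Finset.mem_image.mp hc
          refine ⟨Or.inr (hfA' _), ?_⟩
          rw [← h1, hl c0 (hF c0 hc0).1]
          exact (hF c0 hc0).2.trans h
        · intro ha
          rw [R1 _ k _ (Or.inr rfl)] at ha
          exact absurd ha hnc
        · intro _ y hy hyn
          obtain ⟨m, hm, rfl⟩ := (U2 _ _).mp hy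
          rw [R1 _ m _ (Or.inr rfl)] at hyn
          obtain ⟨c, hc, hyc⟩ := hF2 hnk (f m) hyn hm
          refine ⟨f' (l c), Finset.mem_image_of_mem _ hc, ?_⟩
          rw [R2, hl c (hF c hc).1]
          exact hyc
  let s : Cond := {
    A := q.A ∪ q'.A
    U := SU
    cnt := q.cnt.union q'.cnt
    sub := by
      rintro a (ha | ha) y hy
      · rw [← hf] at ha
        obtain ⟨k, rfl⟩ := ha
        obtain ⟨m, hm, hym | hym⟩ := (U1 _ _).mp hy
        · subst hym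
          exact ⟨Or.inl (hfA m), hcle _ _ hm⟩
        · subst hym
          refine ⟨Or.inr (hfA' m), ?_⟩
          rcases h4 m with h | h
          · rw [h3 m h]; exact hcle _ _ hm
          · exact ((h5 m).le.trans h).trans (hcle _ _ hm)
      · rw [← hf'] at ha
        obtain ⟨k, rfl⟩ := ha
        obtain ⟨m, hm, rfl⟩ := (U2 _ _).mp hy
        exact ⟨Or.inr (hfA' m), (hle _ _).mp (hcle _ _ hm)⟩
    self := by
      rintro a (ha | ha)
      · rw [← hf] at ha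
        obtain ⟨k, rfl⟩ := ha
        exact (R1 _ k _ (Or.inl rfl)).mpr (q.self _ (hfA k))
      · rw [← hf'] at ha
        obtain ⟨k, rfl⟩ := ha
        exact (R2 _ _).mpr (q.self _ (hfA k))
    cov := by
      rintro a (ha | ha) b (hb | hb) hab
      · rw [← hf] at ha hb
        obtain ⟨k, rfl⟩ := ha
        obtain ⟨n, rfl⟩ := hb
        exact case1 k n hab
      · rw [← hf] at ha
        rw [← hf'] at hb
        obtain ⟨k, rfl⟩ := ha
        obtain ⟨n, rfl⟩ := hb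
        have hkd : f k < d := by
          rcases h4 k with h | h
          · exact h
          · exact absurd (h.trans_lt (hab.trans (h5 n))) (lt_irrefl _)
        have := case2 k n (by rw [h3 k hkd]; exact hab)
        rw [h3 k hkd] at this
        exact this
      · rw [← hf'] at ha
        rw [← hf] at hb
        obtain ⟨k, rfl⟩ := ha
        obtain ⟨n, rfl⟩ := hb
        exact case3 k n hab
      · rw [← hf'] at ha hb
        obtain ⟨k, rfl⟩ := ha
        obtain ⟨n, rfl⟩ := hb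
        exact case2 k n hab }
  refine ⟨s, ⟨Set.subset_union_left, ?_, ?_⟩, ⟨Set.subset_union_right, ?_, ?_⟩, ?_⟩
  · intro a ha x hx
    rw [← hf] at ha hx
    obtain ⟨k, rfl⟩ := ha
    obtain ⟨m, rfl⟩ := hx
    exact R1 _ m _ (Or.inl rfl)
  · intro y hy
    right
    rcases hy with hy | hy
    · rw [← hf] at hy
      obtain ⟨m, rfl⟩ := hy
      refine ⟨f m, hfA m, ?_⟩
      intro a ha
      rw [← hf] at ha
      obtain ⟨k, rfl⟩ := ha
      exact R1 _ m _ (Or.inl rfl)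
    · rw [← hf'] at hy
      obtain ⟨m, rfl⟩ := hy
      refine ⟨f m, hfA m, ?_⟩
      intro a ha
      rw [← hf] at ha
      obtain ⟨k, rfl⟩ := ha
      exact R1 _ m _ (Or.inr rfl)
  · intro a ha x hx
    rw [← hf'] at ha hx
    obtain ⟨k, rfl⟩ := ha
    obtain ⟨m, rfl⟩ := hx
    exact (R2 m k).trans (h2 m k)
  · intro y hy
    have hright : ∀ m, y = f' m → ∃ x ∈ q'.A, ∀ a ∈ q'.A, (y ∈ s.U a ↔ x ∈ q'.U a) := by
      intro m hym
      subst hym
      refine ⟨f' m, hfA' m, ?_⟩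
      intro a ha
      rw [← hf'] at ha
      obtain ⟨k, rfl⟩ := ha
      exact (R2 m k).trans (h2 m k)
    rcases hy with hy | hy
    · rw [← hf] at hy
      obtain ⟨m, rfl⟩ := hy
      by_cases hmd : f m < d
      · right
        exact hright m (h3 m hmd).symm
      · left
        intro a ha hmem
        rw [← hf'] at ha
        obtain ⟨k, rfl⟩ := ha
        obtain ⟨m1, _, hm1⟩ := (U2 _ _).mp hmem
        exact hmd (h0 _ _ hm1).1
    · rw [← hf'] at hy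
      obtain ⟨m, hm⟩ := hy
      right
      exact hright m hm.symm
  · intro m n
    exact R1 _ m _ (Or.inr rfl)

end Pool.Agent.Helper332.CPB
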