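import Mathlib
import Pool.Agent.Helper332.CPB.Defs
import Pool.Agent.Helper332.NRS.P_mk_Iio_le

set_option autoImplicit false

namespace Pool.Agent.Helper332.CPB

open Cardinal Set

theorem mk_Iio_le (a : Kc) : #(Set.Iio a) ≤ 𝔠 :=
  Pool.Agent.Helper332.NRS.mk_Iio_le a

end Pool.Agent.Helper332.CPB
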