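import Mathlib
import Pool.Agent.Helper332.CPB.Defs
import Pool.Agent.Helper332.CPB.P_mk_Iio_le

set_option autoImplicit false

namespace Pool.Agent.Helper332.CPB

open Cardinal Set


theorem mk_types (d : Kc) :
    #(Set (ℕ × ℕ) × Set (ℕ × ℕ) × Set (ℕ × ℕ) × ℕ × (ℕ → Set.Iic d)) ≤ 𝔠 := by
  have h1 : #(Set (ℕ × ℕ)) ≤ 𝔠 := by
    rw [Cardinal.mk_set]
    simp [Cardinal.two_power_aleph0]
  have h2 : #(Set.Iic d) ≤ 𝔠 := by
    have e : Set.Iic d = insert d (Set.Iio d) := by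
      ext x
      simp [le_iff_eq_or_lt]
    rw [e]
    refine le_trans (Cardinal.mk_insert_le) ?_
    calc #(Set.Iio d) + 1 ≤ 𝔠 + 𝔠 := add_le_add (mk_Iio_le d) (le_trans Cardinal.one_le_aleph0 Cardinal.aleph0_le_continuum)
      _ = 𝔠 := Cardinal.continuum_add_self
  have h3 : #(ℕ → Set.Iic d) ≤ 𝔠 := by
    rw [Cardinal.mk_arrow]
    simp only [Cardinal.mk_nat, Cardinal.lift_aleph0]
    calc (Cardinal.lift.{0} #(Set.Iic d)) ^ ℵ₀ ≤ 𝔠 ^ ℵ₀ := by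
          refine Cardinal.power_le_power_right ?_
          simpa using h2
      _ = 𝔠 := Cardinal.continuum_power_aleph0
  have h4 : #ℕ ≤ 𝔠 := by
    rw [Cardinal.mk_nat]; exact Cardinal.aleph0_le_continuum
  have hm : ∀ a b : Cardinal, a ≤ 𝔠 → b ≤ 𝔠 → a * b ≤ 𝔠 := fun a b ha hb =>
    le_trans (mul_le_mul' ha hb) Cardinal.continuum_mul_self.le
  simp only [Cardinal.mk_prod, Cardinal.lift_id]
  exact hm _ _ h1 (hm _ _ h1 (hm _ _ h1 (hm _ _ h4 h3)))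

end Pool.Agent.Helper332.CPB
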