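import Mathlib
import Pool.Agent.Helper332.CPB.Defs

set_option autoImplicit false

namespace Pool.Agent.Helper332.CPB

open Cardinal Set


theorem pick (h : Kc → Kc) (D : Set Kc) (hD : ¬ D.Countable)
    (hD' : ∀ i ∈ D, ∀ j ∈ D, i < j → h i ≤ j) (T : Set Kc) (hT : T.Countable) :
    ∃ i ∈ D, ∀ t ∈ T, t < i ∨ h i ≤ t := by
  classical
  by_contra hcon
  push Not at hcon
  have hDne : D.Nonempty := by
    by_contra h0
    rw [Set.not_nonempty_iff_eq_empty] at h0
    exact hD (h0 ▸ Set.countable_empty)
  haveI : Nonempty Kc := ⟨hDne.some⟩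
  choose! t ht using hcon
  have hmaps : Set.MapsTo t D T := fun i hi => (ht i hi).1
  have hmono : ∀ i ∈ D, ∀ j ∈ D, i < j → t i < t j := by
    intro i hi j hj hij
    have h1 := (ht i hi).2.2
    have h2 := (ht j hj).2.1
    exact lt_of_lt_of_le (lt_of_lt_of_le h1 (hD' i hi j hj hij)) h2
  have hinj : Set.InjOn t D := by
    intro i hi j hj hij
    rcases lt_trichotomy i j with hlt | heq | hgt
    · exact absurd hij (hmono i hi j hj hlt).ne
    · exact heq
    · exact absurd hij.symm (hmono j hj i hi hgt).ne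
  exact hD (hmaps.countable_of_injOn hinj hT)

end Pool.Agent.Helper332.CPB
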