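import Mathlib
import Pool.Agent.Helper332.CPB.Defs
import Pool.Agent.Helper332.NRS.P_exists_bound

set_option autoImplicit false

namespace Pool.Agent.Helper332.CPB

open Cardinal Set

/-- a set of at most continuum many points is bounded -/
theorem exists_bound (S : Set Kc) (hS : #S ≤ 𝔠) : ∃ a : Kc, ∀ b ∈ S, b < a :=
  Pool.Agent.Helper332.NRS.exists_bound S hS

end Pool.Agent.Helper332.CPB
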