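import Mathlib
import Pool.Agent.Helper332.CPB.Defs
import Pool.Agent.Helper332.CPB.P_exists_bound

set_option autoImplicit false

namespace Pool.Agent.Helper332.CPB

open Cardinal Set


theorem reflect (X T : Type) (hT : #T ≤ 𝔠) (ty : X → T) (A : X → Set Kc)
    (hA : ∀ x, (A x).Countable) (d : Kc) :
    ∃ d', d < d' ∧ ∀ x, ∃ x', ty x' = ty x ∧ ∀ a ∈ A x', a < d' := by
  have hrep : ∀ t : Set.range ty, ∃ x, ty x = t := fun t => t.2
  choose rep hrep' using hrep
  have hcard : #(insert d (⋃ t : Set.range ty, A (rep t)) : Set Kc) ≤ 𝔠 := by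
    refine Cardinal.mk_insert_le.trans ?_
    refine Cardinal.add_le_of_le Cardinal.aleph0_le_continuum ?_
      (Cardinal.one_le_aleph0.trans Cardinal.aleph0_le_continuum)
    refine Cardinal.mk_iUnion_le_sum_mk.trans ?_
    refine (Cardinal.sum_le_sum _ (fun _ => ℵ₀) fun t => ?_).trans ?_
    · exact (hA (rep t)).le_aleph0
    · rw [Cardinal.sum_const']
      have h1 : #(Set.range ty) ≤ 𝔠 := (Cardinal.mk_set_le _).trans hT
      calc #(Set.range ty) * ℵ₀ ≤ 𝔠 * ℵ₀ := mul_le_mul_left h1 _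
        _ = 𝔠 := Cardinal.continuum_mul_aleph0
  obtain ⟨d', hd'⟩ := exists_bound _ hcard
  refine ⟨d', hd' d (Set.mem_insert _ _), fun x => ?_⟩
  refine ⟨rep ⟨ty x, Set.mem_range_self x⟩, hrep' _, fun a ha => ?_⟩
  exact hd' a (Set.mem_insert_of_mem _ (Set.mem_iUnion.mpr ⟨_, ha⟩))

end Pool.Agent.Helper332.CPB
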