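import Mathlib
import Pool.Agent.Helper332.CPB.Defs
import Pool.Agent.Helper332.CPB.P_exists_bound
import Pool.Agent.Helper332.CPB.P_mk_Iio_le

set_option autoImplicit false

namespace Pool.Agent.Helper332.CPB

open Cardinal Set


theorem tower (h : Kc → Kc) (hh : ∀ d, d < h d) :
    ∃ (D : Set Kc) (top : Kc), ¬ D.Countable ∧ (∀ i ∈ D, ∀ j ∈ D, i < j → h i ≤ j) ∧
      ∀ i ∈ D, h i ≤ top := by
  classical
  have hex : ∀ (i : Kc) (e : ∀ j, j < i → Kc), ∃ a, ∀ j (hj : j < i), h (e j hj) < a := by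
    intro i e
    obtain ⟨a, ha⟩ := exists_bound (Set.range (fun j : Set.Iio i => h (e j.1 j.2)))
      (mk_range_le.trans (mk_Iio_le i))
    exact ⟨a, fun j hj => ha _ ⟨⟨j, hj⟩, rfl⟩⟩
  choose nx hnx using hex
  have hwf : WellFounded ((· < ·) : Kc → Kc → Prop) := wellFounded_lt
  obtain ⟨E, hE⟩ : ∃ E : Kc → Kc, ∀ i, E i = nx i (fun j _ => E j) :=
    ⟨hwf.fix (fun i e => nx i e), fun i => hwf.fix_eq _ i⟩
  have hlt : ∀ j i, j < i → h (E j) < E i := by
    intro j i hji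
    rw [hE i]
    exact hnx i (fun j _ => E j) j hji
  have hmono : StrictMono E := fun j i hji => (hh (E j)).trans (hlt j i hji)
  have hcard : #(Set ℕ) = 𝔠 := by
    rw [mk_set, mk_nat]
    exact two_power_aleph0
  have hle : #(Set ℕ) ≤ #Kc := by
    rw [hcard, mk_ord_toType]
    exact Order.le_succ _
  obtain ⟨φ⟩ := (Cardinal.le_def _ _).1 hle
  obtain ⟨i1, hi1⟩ := exists_bound (Set.range φ) (mk_range_le.trans hcard.le)
  refine ⟨Set.range (E ∘ φ), E i1, ?_, ?_, ?_⟩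
  · intro hc
    rw [← le_aleph0_iff_set_countable, mk_range_eq _ (hmono.injective.comp φ.injective),
      hcard] at hc
    exact absurd hc (not_le.2 aleph0_lt_continuum)
  · rintro _ ⟨a, rfl⟩ _ ⟨b, rfl⟩ hab
    exact (hlt _ _ (hmono.lt_iff_lt.1 hab)).le
  · rintro _ ⟨a, rfl⟩
    exact (hlt _ _ (hi1 _ ⟨a, rfl⟩)).le

end Pool.Agent.Helper332.CPB
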