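import Mathlib
import Pool.Agent.Helper332.CPB.Defs
import Pool.Agent.Helper332.CPB.P_amalg
import Pool.Agent.Helper332.CPB.P_reflect
import Pool.Agent.Helper332.CPB.P_mk_types
import Pool.Agent.Helper332.CPB.P_tower
import Pool.Agent.Helper332.CPB.P_pick

set_option autoImplicit false

namespace Pool.Agent.Helper332.CPB

open Cardinal Set


theorem capture (G : Cond → Kc → Finset (Kc × ℕ) → Prop) (p : Cond)
    (hA : ∀ q ξ w, G q ξ w → ξ ∈ q.A ∧ ∀ x c, (x, c) ∈ w → x ∈ q.A)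
    (hmono : ∀ q ξ w, G q ξ w → ∀ r ≤ q, G r ξ w)
    (hdense : ∀ q ≤ p, ∀ ξ, ∃ r ≤ q, ∃ w, G r ξ w) :
    ∃ r ≤ p, ∃ η w, G r η w ∧ ∀ q ≤ r, ∀ T : Set Kc, T.Countable →
      ∃ q' ξ w', G q' ξ w' ∧ ξ ∉ T ∧ ∃ s : Cond, s ≤ q ∧ s ≤ q' ∧
        ∀ x' c, (x', c) ∈ w' → ∃ x, (x, c) ∈ w ∧ x' ∈ s.U x ∧
          ∀ z e, (z, e) ∈ w → z < x → x' ∉ s.U z := by
  classical
  let X : Type := {x : Cond × (ℕ → Kc) × Kc × Finset (Kc × ℕ) × ℕ //
    G x.1 x.2.2.1 x.2.2.2.1 ∧ Set.range x.2.1 = x.1.A ∧ x.2.1 x.2.2.2.2 = x.2.2.1}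
  let ty : ∀ d : Kc, X → Set (ℕ × ℕ) × Set (ℕ × ℕ) × Set (ℕ × ℕ) × ℕ × (ℕ → Set.Iic d) :=
    fun d x => ({m | x.1.2.1 m.1 < x.1.2.1 m.2}, {m | x.1.2.1 m.1 ∈ x.1.1.U (x.1.2.1 m.2)},
      {m | (x.1.2.1 m.1, m.2) ∈ x.1.2.2.2.1}, x.1.2.2.2.2,
      fun n => ⟨min (x.1.2.1 n) d, Set.mem_Iic.2 (min_le_right _ _)⟩)
  choose h hh hrefl using fun d : Kc =>
    reflect X _ (mk_types d) (ty d) (fun x => x.1.1.A) (fun x => x.1.1.cnt) d
  obtain ⟨D, top, hDunc, hD', htop⟩ := tower h hh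
  obtain ⟨r, hr, w, hG⟩ := hdense p le_rfl top
  refine ⟨r, hr, top, w, hG, ?_⟩
  intro q hq T hT
  obtain ⟨d, hdD, hd⟩ := pick h D hDunc hD' (q.A ∪ T) (q.cnt.union hT)
  have hGq : G q top w := hmono r top w hG q hq
  have htopA : top ∈ q.A := (hA _ _ _ hGq).1
  obtain ⟨f, hf⟩ := q.cnt.exists_eq_range ⟨top, htopA⟩
  obtain ⟨n0, hn0⟩ : ∃ n0, f n0 = top := by
    have h1 := htopA
    rw [hf] at h1
    exact h1
  have hfA : ∀ n, f n ∈ q.A := fun n => by rw [hf]; exact Set.mem_range_self n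
  obtain ⟨⟨⟨q', f', ξ', w', n0'⟩, hG', hf', hn'⟩, hty, hlt⟩ :=
    hrefl d ⟨(q, f, top, w, n0), hGq, hf.symm, hn0⟩
  dsimp only at hG' hf' hn' hlt
  have e1 : ∀ m n, (f' m < f' n ↔ f m < f n) := by
    intro m n
    have h1 := congrArg (fun t => (m, n) ∈ t.1) hty
    exact iff_of_eq h1
  have e2 : ∀ m n, (f' m ∈ q'.U (f' n) ↔ f m ∈ q.U (f n)) := by
    intro m n
    have h1 := congrArg (fun t => (m, n) ∈ t.2.1) hty
    exact iff_of_eq h1
  have e3 : ∀ m c, ((f' m, c) ∈ w' ↔ (f m, c) ∈ w) := by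
    intro m c
    have h1 := congrArg (fun t => (m, c) ∈ t.2.2.1) hty
    exact iff_of_eq h1
  have e4 : n0' = n0 := congrArg (fun t => t.2.2.2.1) hty
  have e5 : ∀ n, min (f' n) d = min (f n) d := by
    intro n
    have h1 := congrArg (fun t => ((t.2.2.2.2 n : Set.Iic d) : Kc)) hty
    exact h1
  have h3' : ∀ n, d ≤ f n → d ≤ f' n := by
    intro n hn
    have h1 := e5 n
    rw [min_eq_right hn] at h1
    exact min_eq_right_iff.1 h1
  have h5 : ∀ n, f' n < h d := fun n => hlt (f' n) (by rw [← hf']; exact Set.mem_range_self n)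
  obtain ⟨s, hs1, hs2, hs3⟩ := amalg q q' f f' hf.symm hf' d (h d)
    (fun m n => (e1 m n).symm) (fun m n => (e2 m n).symm)
    (by
      intro n hn
      have h1 := e5 n
      rw [min_eq_left hn.le] at h1
      have h2 : f' n < d := by
        by_contra h3
        rw [min_eq_right (not_lt.1 h3)] at h1
        exact absurd hn (by rw [h1]; exact lt_irrefl _)
      rw [min_eq_left h2.le] at h1
      exact h1)
    h3' (fun n => hd (f n) (Or.inl (hfA n))) h5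
  refine ⟨q', ξ', w', hG', ?_, s, hs1, hs2, ?_⟩
  · intro hξ
    rw [e4] at hn'
    rcases hd ξ' (Or.inr hξ) with h1 | h1
    · have h2 : d ≤ f n0 := by rw [hn0]; exact (hh d).le.trans (htop d hdD)
      have h3 := h3' n0 h2
      rw [hn'] at h3
      exact absurd h1 (not_lt.2 h3)
    · have h2 := h5 n0
      rw [hn'] at h2
      exact absurd h2 (not_lt.2 h1)
  · intro x' c hx'
    have h1 : x' ∈ q'.A := (hA _ _ _ hG').2 x' c hx'
    rw [← hf'] at h1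
    obtain ⟨m, rfl⟩ := h1
    refine ⟨f m, (e3 m c).1 hx', (hs3 m m).2 (q.self _ (hfA m)), ?_⟩
    intro z e hz hzx hmem
    have h2 : z ∈ q.A := (hA _ _ _ hGq).2 z e hz
    rw [hf] at h2
    obtain ⟨n, rfl⟩ := h2
    have h3 := (hs3 m n).1 hmem
    exact absurd hzx (not_lt.2 (q.sub (f n) (hfA n) (f m) h3).2)

end Pool.Agent.Helper332.CPB
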