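import Mathlib
import Pool.Agent.Helper332.CPB.Defs

set_option autoImplicit false

namespace Pool.Agent.Helper332.CPB

open Cardinal Set


theorem exists_add (p : Cond) (S : Set Kc) (hS : S.Countable) : ∃ q ≤ p, S ⊆ q.A := by
  classical
  let U' : Kc → Set Kc := fun a => if a ∈ p.A then p.U a else {a}
  have hU1 : ∀ a, a ∈ p.A → U' a = p.U a := fun a ha => if_pos ha
  have hU2 : ∀ a, a ∉ p.A → U' a = {a} := fun a ha => if_neg ha
  let q : Cond :=
    { A := p.A ∪ S
      U := U'
      cnt := p.cnt.union hS
      sub := by
        intro a ha y hy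
        by_cases h : a ∈ p.A
        · rw [hU1 a h] at hy
          exact ⟨Or.inl (p.sub a h y hy).1, (p.sub a h y hy).2⟩
        · rw [hU2 a h, mem_singleton_iff] at hy
          subst hy
          exact ⟨ha, le_refl _⟩
      self := by
        intro a ha
        by_cases h : a ∈ p.A
        · rw [hU1 a h]; exact p.self a h
        · rw [hU2 a h]; rfl
      cov := by
        intro a ha b hb hab
        by_cases h1 : a ∈ p.A
        · by_cases h2 : b ∈ p.A
          · obtain ⟨F, hF1, hF2, hF3⟩ := p.cov a h1 b h2 hab
            refine ⟨F, fun c hc => ⟨Or.inl (hF1 c hc).1, (hF1 c hc).2⟩, ?_, ?_⟩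
            · rw [hU1 a h1, hU1 b h2]
              intro hm y hy hyb
              obtain ⟨c, hc, hyc⟩ := hF2 hm y hy hyb
              refine ⟨c, hc, ?_⟩
              rw [hU1 c (hF1 c hc).1]
              exact hyc
            · rw [hU1 a h1, hU1 b h2]
              intro hm y hy hyb
              obtain ⟨c, hc, hyc⟩ := hF3 hm y hy hyb
              refine ⟨c, hc, ?_⟩
              rw [hU1 c (hF1 c hc).1]
              exact hyc
          · refine ⟨∅, by simp, ?_, ?_⟩
            · intro hm
              rw [hU2 b h2, mem_singleton_iff] at hm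
              exact absurd hm hab.ne
            · intro _ y hy hyb
              rw [hU2 b h2, mem_singleton_iff] at hyb
              subst hyb
              rw [hU1 a h1] at hy
              exact absurd (p.sub a h1 _ hy).2 (not_le.mpr hab)
        · refine ⟨∅, by simp, ?_, ?_⟩
          · intro hm y hy hyb
            rw [hU2 a h1, mem_singleton_iff] at hy
            subst hy
            exact absurd hm hyb
          · intro hm y hy hyb
            rw [hU2 a h1, mem_singleton_iff] at hy
            subst hy
            exact absurd hyb hm }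
  refine ⟨q, ?_, subset_union_right⟩
  rw [le_def]
  refine ⟨subset_union_left, ?_, ?_⟩
  · intro a ha x _
    show x ∈ U' a ↔ _
    rw [hU1 a ha]
  · intro y _
    by_cases hy : y ∈ p.A
    · right
      refine ⟨y, hy, fun a ha => ?_⟩
      show y ∈ U' a ↔ _
      rw [hU1 a ha]
    · left
      intro a ha hya
      have h1 : y ∈ U' a := hya
      rw [hU1 a ha] at h1
      exact hy (p.sub a ha y h1).1

end Pool.Agent.Helper332.CPB
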