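import Mathlib
import Pool.Agent.Helper332.CPB.Defs

set_option autoImplicit false

namespace Pool.Agent.Helper332.CPB

open Cardinal Set


/-- the union of the sets `U` -/
def scU (s : ℕ → Cond) (a : Kc) : Set Kc := {y | ∃ n, a ∈ (s n).A ∧ y ∈ (s n).U a}

theorem sc_le (s : ℕ → Cond) (hs : ∀ n, s (n + 1) ≤ s n) {m n : ℕ} (h : m ≤ n) : s n ≤ s m :=
  antitone_nat_of_succ_le hs h

theorem sc_A (s : ℕ → Cond) (hs : ∀ n, s (n + 1) ≤ s n) {m n : ℕ} (h : m ≤ n) :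
    (s m).A ⊆ (s n).A := (le_def.1 (sc_le s hs h)).1

theorem sc_coh (s : ℕ → Cond) (hs : ∀ n, s (n + 1) ≤ s n) (n : ℕ) {a y : Kc}
    (ha : a ∈ (s n).A) (hy : y ∈ (s n).A) : y ∈ scU s a ↔ y ∈ (s n).U a := by
  constructor
  · rintro ⟨m, ham, hym⟩
    have hyA := ((s m).sub a ham y hym).1
    have h1 := ((le_def.1 (sc_le s hs (le_max_left m n))).2.1 a ham y hyA).2 hym
    exact ((le_def.1 (sc_le s hs (le_max_right m n))).2.1 a ha y hy).1 h1
  · intro h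
    exact ⟨n, ha, h⟩

theorem sc_third (s : ℕ → Cond) (hs : ∀ n, s (n + 1) ≤ s n) (n : ℕ) {y : Kc}
    (hy : ∃ m, y ∈ (s m).A) : (∀ a ∈ (s n).A, y ∉ scU s a) ∨
      ∃ x ∈ (s n).A, ∀ a ∈ (s n).A, (y ∈ scU s a ↔ x ∈ (s n).U a) := by
  obtain ⟨m, hym⟩ := hy
  have hym' := sc_A s hs (le_max_left m n) hym
  rcases (le_def.1 (sc_le s hs (le_max_right m n))).2.2 y hym' with h1 | ⟨x, hx, h1⟩
  · left
    intro a ha h2
    exact h1 a ha ((sc_coh s hs (max m n) (sc_A s hs (le_max_right m n) ha) hym').1 h2)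
  · right
    refine ⟨x, hx, fun a ha => ?_⟩
    rw [sc_coh s hs (max m n) (sc_A s hs (le_max_right m n) ha) hym']
    exact h1 a ha

/-- the union of the conditions -/
def scQ (s : ℕ → Cond) (hs : ∀ n, s (n + 1) ≤ s n) : Cond where
  A := ⋃ n, (s n).A
  U := scU s
  cnt := countable_iUnion fun n => (s n).cnt
  sub := by
    intro a _ y hy
    obtain ⟨n, han, hyn⟩ := hy
    obtain ⟨h1, h2⟩ := (s n).sub a han y hyn
    exact ⟨mem_iUnion.2 ⟨n, h1⟩, h2⟩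
  self := by
    intro a ha
    obtain ⟨n, han⟩ := mem_iUnion.1 ha
    exact ⟨n, han, (s n).self a han⟩
  cov := by
    intro a ha b hb hab
    obtain ⟨n1, ha1⟩ := mem_iUnion.1 ha
    obtain ⟨n2, hb2⟩ := mem_iUnion.1 hb
    obtain ⟨n, hn⟩ : ∃ n, n = max n1 n2 := ⟨_, rfl⟩
    have han : a ∈ (s n).A := sc_A s hs (by rw [hn]; exact le_max_left _ _) ha1
    have hbn : b ∈ (s n).A := sc_A s hs (by rw [hn]; exact le_max_right _ _) hb2
    obtain ⟨F, hF1, hF2, hF3⟩ := (s n).cov a han b hbn hab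
    have key : ∀ y, y ∈ scU s a → ∃ x ∈ (s n).A, ∀ c ∈ (s n).A,
        (y ∈ scU s c ↔ x ∈ (s n).U c) := by
      intro y hy
      have hy' : ∃ m, y ∈ (s m).A := by
        obtain ⟨m, ham, hym⟩ := hy
        exact ⟨m, ((s m).sub a ham y hym).1⟩
      rcases sc_third s hs n hy' with h1 | h1
      · exact absurd hy (h1 a han)
      · exact h1
    refine ⟨F, fun c hc => ⟨mem_iUnion.2 ⟨n, (hF1 c hc).1⟩, (hF1 c hc).2⟩, ?_, ?_⟩
    · intro hab2 y hy hyb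
      rw [sc_coh s hs n hbn han] at hab2
      obtain ⟨x, hx, hxc⟩ := key y hy
      obtain ⟨c, hc, hxc2⟩ := hF2 hab2 x ((hxc a han).1 hy) (fun h => hyb ((hxc b hbn).2 h))
      exact ⟨c, hc, (hxc c (hF1 c hc).1).2 hxc2⟩
    · intro hab2 y hy hyb
      rw [sc_coh s hs n hbn han] at hab2
      obtain ⟨x, hx, hxc⟩ := key y hy
      obtain ⟨c, hc, hxc2⟩ := hF3 hab2 x ((hxc a han).1 hy) ((hxc b hbn).1 hyb)
      exact ⟨c, hc, (hxc c (hF1 c hc).1).2 hxc2⟩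

theorem sigma_closed (s : ℕ → Cond) (hs : ∀ n, s (n + 1) ≤ s n) : ∃ q, ∀ n, q ≤ s n := by
  refine ⟨scQ s hs, fun n => ?_⟩
  rw [le_def]
  refine ⟨fun a ha => mem_iUnion.2 ⟨n, ha⟩, fun a ha x hx => sc_coh s hs n ha hx, ?_⟩
  intro y hy
  exact sc_third s hs n (mem_iUnion.1 hy)

end Pool.Agent.Helper332.CPB
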