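import Mathlib
import Pool.Agent.Helper292.ForceCH
import Pool.Agent.Helper332.CPB.P_exists_add
import Pool.Agent.Helper332.CPB.P_sigma_closed
import Pool.Agent.Helper332.CPB.P_capture

/-!
# Forcing a capturing system on the successor of the continuum
-/

set_option autoImplicit false

namespace Pool.Agent.Helper332.CPB

open Cardinal Set
open Pool.Agent.Helper292.ForceCH (fnot fand fall fimp fiff fex fground meets IsFun mem_fex mem_fimp
  down_fall down_fex down_meets down_fnot down_fand down_fimp fimp_of decide_countable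
  meets_of_dense meet_countable)

section

variable (P : Type) [Preorder P]

/-- Each label occurs once: `w` is a finite set of points with one label each. -/
def OneLabel (w : Finset (Kc × ℕ)) : Prop := ∀ x c c', (x, c) ∈ w → (x, c') ∈ w → c = c'

/-- The sets named by `U` form a system: `a ∈ U a ⊆ {y | y ≤ a}`, and for `a < b` the set
`U a \ U b` (if `a ∈ U b`), or `U a ∩ U b` (if `a ∉ U b`), is covered by finitely many sets `U c`
with `c < a`. -/
def SystemName {P : Type} [Preorder P] (U : Kc → Kc → Set P) : Set P :=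
  fand (fall fun a : Kc => meets (U a a))
    (fand (fall fun a : Kc => fall fun y : Kc => fimp (meets (U a y)) (fground (y ≤ a)))
      (fall fun a : Kc => fall fun b : Kc => fall fun _ : a < b => fex fun F : Finset Kc =>
        fand (fground (∀ c ∈ F, c < a))
          (fand
            (fimp (meets (U b a)) (fall fun y : Kc => fimp (fand (meets (U a y))
              (fnot (meets (U b y)))) (fex fun c : Kc => fand (fground (c ∈ F)) (meets (U c y)))))
            (fimp (fnot (meets (U b a))) (fall fun y : Kc => fimp (fand (meets (U a y))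
              (meets (U b y))) (fex fun c : Kc => fand (fground (c ∈ F)) (meets (U c y))))))))

/-- The system named by `U` is capturing: whenever finite sets `Φ ξ` of labelled points, one of
them `ξ` and each with one label, are given for all `ξ`, there is a finite set `w` of labelled
points, each with one label, such that for uncountably many `ξ` (for every sequence `s` some `ξ` is
not a member of it) every point `x` of `Φ ξ` has the label of the least point `y` of `w` with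
`x ∈ U y`. -/
def CapturingName {P : Type} [Preorder P] (U : Kc → Kc → Set P) : Set P :=
  fall fun Φ : Kc → Finset (Kc × ℕ) → Set P =>
    fimp (fand (IsFun Φ) (fall fun ξ : Kc => fall fun v : Finset (Kc × ℕ) =>
        fimp (meets (Φ ξ v)) (fground ((∃ c, (ξ, c) ∈ v) ∧ OneLabel v))))
      (fex fun w : Finset (Kc × ℕ) => fand (fground (OneLabel w))
        (fall fun s : ℕ → Kc → Set P => fimp (IsFun s) (fex fun ξ : Kc =>
          fand (fall fun n : ℕ => fnot (meets (s n ξ)))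
            (fex fun v : Finset (Kc × ℕ) => fand (meets (Φ ξ v))
              (fall fun x : Kc => fall fun c : ℕ => fall fun _ : (x, c) ∈ v => fex fun y : Kc =>
                fand (fground ((y, c) ∈ w)) (fand (meets (U y x))
                  (fall fun z : Kc => fall fun d : ℕ => fall fun _ : (z, d) ∈ w =>
                    fall fun _ : z < y => fnot (meets (U z x)))))))))

/-- The forcing sentence: there is a capturing system on `Kc`. -/
def CapHolds : Set P :=
  fex fun U : Kc → Kc → Set P => fand (SystemName U) (CapturingName U)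

end

/-- the name of the generic system -/
def gen (a y : Kc) : Set Cond := {p | a ∈ p.A ∧ y ∈ p.U a}

theorem mem_gen {a y : Kc} {p : Cond} (ha : a ∈ p.A) (h : y ∈ p.U a) : p ∈ meets (gen a y) := by
  intro q hq
  exact ⟨q, le_rfl, p, ⟨ha, h⟩, hq⟩

theorem of_gen {a y : Kc} {p : Cond} (ha : a ∈ p.A) (hy : y ∈ p.A) (h : p ∈ meets (gen a y)) :
    y ∈ p.U a := by
  obtain ⟨r, hr, s, ⟨hs1, hs2⟩, hrs⟩ := h p le_rfl
  have h1 : y ∈ r.U a := (hrs.2.1 a hs1 y (s.sub a hs1 y hs2).1).2 hs2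
  exact (hr.2.1 a ha y hy).1 h1

theorem not_gen {a y : Kc} {p : Cond} (ha : a ∈ p.A) (hy : y ∈ p.A) (h : y ∉ p.U a) :
    p ∈ fnot (meets (gen a y)) := by
  intro q hq h1
  have h2 := of_gen (hq.1 ha) (hq.1 hy) h1
  exact h ((hq.2.1 a ha y hy).1 h2)

theorem gen_of_not {a y : Kc} {p : Cond} (ha : a ∈ p.A) (hy : y ∈ p.A)
    (h : p ∈ fnot (meets (gen a y))) : y ∉ p.U a := fun h1 => h p le_rfl (mem_gen ha h1)

theorem add1 (p : Cond) (a : Kc) : ∃ q ≤ p, a ∈ q.A := by
  obtain ⟨q, hq, h⟩ := exists_add p {a} (Set.countable_singleton a)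
  exact ⟨q, hq, h rfl⟩

theorem add2 (p : Cond) (a b : Kc) : ∃ q ≤ p, a ∈ q.A ∧ b ∈ q.A := by
  obtain ⟨q, hq, h⟩ := exists_add p {a, b} (by simp)
  exact ⟨q, hq, h (by simp), h (by simp)⟩

theorem system (p : Cond) : p ∈ SystemName gen := by
  refine ⟨fun a => ?_, fun a y => ?_, fun a b hab => ?_⟩
  · refine meets_of_dense fun q _ => ?_
    obtain ⟨r, hr, ha⟩ := add1 q a
    exact ⟨r, hr, mem_gen ha (r.self a ha)⟩
  · refine mem_fimp.2 fun q _ h => ?_
    obtain ⟨r, hr, ha, hy⟩ := add2 q a y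
    exact ⟨r, hr, (r.sub a ha y (of_gen ha hy (down_meets _ _ h _ hr))).2⟩
  · refine mem_fex.2 fun q _ => ?_
    obtain ⟨r, hr, ha, hb⟩ := add2 q a b
    obtain ⟨F, hF, h1, h2⟩ := r.cov a ha b hb hab
    refine ⟨r, hr, F, fun c hc => (hF c hc).2, ?_, ?_⟩
    · refine fimp_of fun t ht h3 y => mem_fimp.2 fun u hu h4 => ?_
      have h5 : a ∈ r.U b := by
        have := of_gen (ht.1 hb) (ht.1 ha) h3
        exact (ht.2.1 b hb a ha).1 this
      obtain ⟨v, hv, hy⟩ := add1 u y
      have hvr : v ≤ r := hv.trans (hu.trans ht)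
      have h6 : y ∈ v.U a := of_gen (hvr.1 ha) hy (down_meets _ _ h4.1 _ hv)
      have h7 : y ∉ v.U b := gen_of_not (hvr.1 hb) hy (down_fnot _ _ h4.2 _ hv)
      rcases hvr.2.2 y hy with h8 | ⟨x, hx, h8⟩
      · exact absurd h6 (h8 a ha)
      · obtain ⟨c, hc, h9⟩ := h1 h5 x ((h8 a ha).1 h6) (fun h => h7 ((h8 b hb).2 h))
        refine ⟨v, hv, mem_fex.2 fun w hw => ⟨w, le_rfl, c, hc, ?_⟩⟩
        exact down_meets _ _ (mem_gen (hvr.1 (hF c hc).1) ((h8 c (hF c hc).1).2 h9)) _ hw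
    · refine fimp_of fun t ht h3 y => mem_fimp.2 fun u hu h4 => ?_
      have h5 : a ∉ r.U b := by
        have := gen_of_not (ht.1 hb) (ht.1 ha) h3
        exact fun h => this ((ht.2.1 b hb a ha).2 h)
      obtain ⟨v, hv, hy⟩ := add1 u y
      have hvr : v ≤ r := hv.trans (hu.trans ht)
      have h6 : y ∈ v.U a := of_gen (hvr.1 ha) hy (down_meets _ _ h4.1 _ hv)
      have h7 : y ∈ v.U b := of_gen (hvr.1 hb) hy (down_meets _ _ h4.2 _ hv)
      rcases hvr.2.2 y hy with h8 | ⟨x, hx, h8⟩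
      · exact absurd h6 (h8 a ha)
      · obtain ⟨c, hc, h9⟩ := h2 h5 x ((h8 a ha).1 h6) ((h8 b hb).1 h7)
        refine ⟨v, hv, mem_fex.2 fun w hw => ⟨w, le_rfl, c, hc, ?_⟩⟩
        exact down_meets _ _ (mem_gen (hvr.1 (hF c hc).1) ((h8 c (hF c hc).1).2 h9)) _ hw

/-- a name of a sequence is decided by some condition -/
theorem decide_seq (p : Cond) (s : ℕ → Kc → Set Cond) (hs : p ∈ IsFun s) :
    ∃ q ≤ p, ∃ f : ℕ → Kc, ∀ n ξ, ξ ≠ f n → q ∈ fnot (meets (s n ξ)) := by
  obtain ⟨q, hq, h1⟩ := meet_countable (P := {r : Cond // r ≤ p})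
    (by
      intro t ht
      obtain ⟨q, hq⟩ := sigma_closed (fun n => (t n).1) (fun n => ht n)
      exact ⟨⟨q, (hq 0).trans (t 0).2⟩, fun n => hq n⟩)
    (fun n => {r | ∃ ξ, r.1 ∈ meets (s n ξ)})
    (fun n r ⟨ξ, hξ⟩ t ht => ⟨ξ, down_meets _ _ hξ _ ht⟩) ⟨p, le_rfl⟩
    (by
      intro n r _
      obtain ⟨t, ht, ξ, h⟩ := mem_fex.1 (hs.1 n) r.1 r.2
      exact ⟨⟨t, ht.trans r.2⟩, ht, ξ, h⟩)
  choose f hf using h1
  refine ⟨q.1, q.2, f, fun n ξ hξ r hr h2 => ?_⟩
  obtain ⟨t, _, h3⟩ := mem_fimp.1 (hs.2 n ξ (f n)) r (hr.trans q.2)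
    ⟨h2, down_meets _ _ (hf n) _ hr⟩
  exact hξ h3

theorem capturing (p : Cond) : p ∈ CapturingName gen := by
  intro Φ
  refine fimp_of fun p0 _ hΦ => ?_
  have hF1 := hΦ.1.1
  have hlab : ∀ q ≤ p0, ∀ ξ v, q ∈ meets (Φ ξ v) → (∃ c, (ξ, c) ∈ v) ∧ OneLabel v := by
    intro q hq ξ v h
    obtain ⟨_, _, h1⟩ := mem_fimp.1 (hΦ.2 ξ v) q hq h
    exact h1
  refine mem_fex.2 fun q0 hq0 => ?_
  obtain ⟨r, hr, η, w, hG, hcap⟩ := capture
    (fun q ξ w => q ≤ p0 ∧ q ∈ meets (Φ ξ w) ∧ ξ ∈ q.A ∧ ∀ x c, (x, c) ∈ w → x ∈ q.A) q0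
    (fun q ξ w h => h.2.2)
    (fun q ξ w h r hr => ⟨hr.trans h.1, down_meets _ _ h.2.1 _ hr, hr.1 h.2.2.1,
      fun x c hx => hr.1 (h.2.2.2 x c hx)⟩)
    (by
      intro q hq ξ
      obtain ⟨r, hr, v, hv⟩ := mem_fex.1 (hF1 ξ) q (hq.trans hq0)
      obtain ⟨t, ht, hS⟩ := exists_add r (insert ξ (Prod.fst '' (v : Set (Kc × ℕ))))
        ((v.finite_toSet.image _).countable.insert ξ)
      refine ⟨t, ht.trans hr, v, ht.trans (hr.trans (hq.trans hq0)), down_meets _ _ hv _ ht,
        hS (Set.mem_insert _ _), fun x c hx => hS (Set.mem_insert_of_mem _ ⟨(x, c), ?_, rfl⟩)⟩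
      exact hx)
  have hrp : r ≤ p0 := hG.1
  refine ⟨r, hr, w, (hlab r hrp η w hG.2.1).2, fun s => ?_⟩
  refine fimp_of fun r1 hr1 hs => mem_fex.2 fun r2 hr2 => ?_
  obtain ⟨q, hq, f, hf⟩ := decide_seq r2 s (down_fand (down_fall fun _ => down_fex _)
    (down_fall fun _ => down_fall fun _ => down_fall fun _ => down_fimp _ _) _ hs _ hr2)
  have hqr : q ≤ r := hq.trans (hr2.trans hr1)
  obtain ⟨q', ξ, w', hG', hξ, t, ht, ht', hc⟩ := hcap q hqr (Set.range f) (Set.countable_range f)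
  refine ⟨t, ht.trans hq, ξ, fun n => ?_, ?_⟩
  · exact down_fnot _ _ (hf n ξ fun h => hξ ⟨n, h.symm⟩) _ ht
  · refine mem_fex.2 fun u hu => ⟨u, le_rfl, w', down_meets _ _ hG'.2.1 _ (hu.trans ht'), ?_⟩
    intro x' c hx'
    obtain ⟨x, hx, h1, h2⟩ := hc x' c hx'
    have hut : u ≤ q := hu.trans ht
    have hxr : x ∈ r.A := hG.2.2.2 x c hx
    have hxt : x ∈ t.A := (ht.trans hqr).1 hxr
    have hx't : x' ∈ t.A := ht'.1 (hG'.2.2.2 x' c hx')
    refine mem_fex.2 fun v hv => ⟨v, le_rfl, x, hx, ?_, fun z e hz hzx => ?_⟩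
    · exact down_meets _ _ (mem_gen hxt h1) _ (hv.trans hu)
    · have hzt : z ∈ t.A := (ht.trans hqr).1 (hG.2.2.2 z e hz)
      exact down_fnot _ _ (not_gen hzt hx't (h2 z e hz hzx)) _ (hv.trans hu)

theorem capHolds (p : Cond) : p ∈ CapHolds Cond :=
  mem_fex.2 fun q _ => ⟨q, le_rfl, gen, system q, capturing q⟩

instance : Nonempty Cond :=
  ⟨{ A := ∅, U := fun _ => ∅, cnt := Set.countable_empty, sub := by simp, self := by simp,
     cov := by simp }⟩

/-- There is a forcing notion which forces that there is a capturing system on `Kc`. -/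
theorem exists_forcing : ∃ (P : Type) (_ : Preorder P), Nonempty P ∧ ∀ p : P, p ∈ CapHolds P :=
  ⟨Cond, inferInstance, inferInstance, capHolds⟩

end Pool.Agent.Helper332.CPB
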