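import Mathlib

/-!
# The topology given by a system of initial neighbourhoods on a well-ordered set
-/

set_option autoImplicit false

namespace Pool.Agent.Helper332.CPBTop

open Set Topology

/-- A system of sets `U a ∋ a` of points `≤ a` of the well-ordered set `K`, such that for `a < b`
the set `U a \ U b` (if `a ∈ U b`), or `U a ∩ U b` (if `a ∉ U b`), is covered by finitely many sets
`U c` with `c < a`. -/
def IsSystem {K : Type} [LinearOrder K] (U : K → Set K) : Prop :=
  (∀ a, a ∈ U a) ∧ (∀ a, ∀ y ∈ U a, y ≤ a) ∧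
    ∀ a b, a < b → ∃ F : Finset K, (∀ c ∈ F, c < a) ∧
      (a ∈ U b → ∀ y ∈ U a, y ∉ U b → ∃ c ∈ F, y ∈ U c) ∧
      (a ∉ U b → ∀ y ∈ U a, y ∈ U b → ∃ c ∈ F, y ∈ U c)

/-- Whenever finite sets `Φ ξ` of labelled points, one of them `ξ` and each with one label, are
given for all points `ξ` of `K`, there is a finite set `w` of labelled points, each with one label,
such that for uncountably many `ξ` every point `x` of `Φ ξ` has the label of the least point `y` of
`w` with `x ∈ U y`. -/
def IsCapturing {K : Type} [LinearOrder K] (U : K → Set K) : Prop :=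
  ∀ Φ : K → Finset (K × ℕ), (∀ ξ, ∃ c, (ξ, c) ∈ Φ ξ) →
    (∀ ξ x c c', (x, c) ∈ Φ ξ → (x, c') ∈ Φ ξ → c = c') →
    ∃ w : Finset (K × ℕ), (∀ x c c', (x, c) ∈ w → (x, c') ∈ w → c = c') ∧
      ∀ s : ℕ → K, ∃ ξ, (∀ n, s n ≠ ξ) ∧ ∀ x c, (x, c) ∈ Φ ξ →
        ∃ y, (y, c) ∈ w ∧ x ∈ U y ∧ ∀ z d, (z, d) ∈ w → z < y → x ∉ U z

/-- The set `K` with the topology in which the sets `U a` are open and closed. -/
@[nolint unusedArguments]
def Sp {K : Type} (_U : K → Set K) : Type := K

instance {K : Type} (U : K → Set K) : TopologicalSpace (Sp U) :=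
  TopologicalSpace.generateFrom {S : Set K | ∃ a, S = U a ∨ S = (U a)ᶜ}

theorem isOpen_U {K : Type} (U : K → Set K) (a : K) : IsOpen (X := Sp U) (U a) :=
  TopologicalSpace.isOpen_generateFrom_of_mem ⟨a, Or.inl rfl⟩

theorem isClosed_U {K : Type} (U : K → Set K) (a : K) : IsClosed (X := Sp U) (U a) :=
  ⟨TopologicalSpace.isOpen_generateFrom_of_mem ⟨a, Or.inr rfl⟩⟩

/-- the set of functions is open in the topology of pointwise convergence -/
def POpen {X : Type} [TopologicalSpace X] (B : Set C(X, ℝ)) : Prop :=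
  @IsOpen C(X, ℝ) (TopologicalSpace.induced (fun f : C(X, ℝ) => (f : X → ℝ)) inferInstance) B

end Pool.Agent.Helper332.CPBTop
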