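import Mathlib
import Pool.Agent.Helper332.CPB.TopDefs

set_option autoImplicit false

namespace Pool.Agent.Helper332.CPBTop

open Set Topology


theorem compact_U {K : Type} [LinearOrder K] [WellFoundedLT K] (U : K → Set K) (hU : IsSystem U)
    (a : K) : IsCompact (X := Sp U) (U a) := by
  obtain ⟨h1, h2, h3⟩ := hU
  refine (@isCompact_iff_ultrafilter_le_nhds (Sp U) _ (U a)).mpr ?_
  intro (𝒰 : Ultrafilter K) h𝒰
  have h𝒰' : U a ∈ 𝒰 := Filter.le_principal_iff.mp h𝒰
  let S : Set K := {c | U c ∈ 𝒰}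
  have hS : S.Nonempty := ⟨a, h𝒰'⟩
  obtain ⟨b, hb, hmin'⟩ := WellFounded.has_min (wellFounded_lt (α := K)) S hS
  have hmin : ∀ c, U c ∈ 𝒰 → b ≤ c := fun c hc => not_lt.mp (hmin' c hc)
  have hno : ∀ F : Finset K, (∀ c ∈ F, c < b) → ∀ T ∈ 𝒰, (∀ y ∈ T, ∃ c ∈ F, y ∈ U c) → False := by
    intro F hF T hT hcov
    have h6 : (⋃ e ∈ (F : Set K), U e) ∈ 𝒰 :=
      Filter.mem_of_superset hT (by intro y hy; simpa using hcov y hy)
    rw [Ultrafilter.finite_biUnion_mem_iff F.finite_toSet] at h6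
    obtain ⟨e, he, hUe⟩ := h6
    exact absurd (hmin e hUe) (not_le.mpr (hF e (by simpa using he)))
  have key : ∀ c, U c ∈ 𝒰 ↔ b ∈ U c := by
    intro c
    constructor
    · intro hc
      rcases (hmin c hc).eq_or_lt with h | h
      · rw [← h]; exact h1 b
      · by_contra hbc
        obtain ⟨F, hF, -, h5⟩ := h3 b c h
        exact hno F hF (U b ∩ U c) (Filter.inter_mem hb hc) (fun y hy => h5 hbc y hy.1 hy.2)
    · intro hbc
      rcases (h2 c b hbc).eq_or_lt with h | h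
      · rw [← h]; exact hb
      · by_contra hc
        have hc' : (U c)ᶜ ∈ 𝒰 := Ultrafilter.compl_mem_iff_notMem.mpr hc
        obtain ⟨F, hF, h4, -⟩ := h3 b c h
        exact hno F hF (U b ∩ (U c)ᶜ) (Filter.inter_mem hb hc') (fun y hy => h4 hbc y hy.1 hy.2)
  refine ⟨b, (key a).mp h𝒰', ?_⟩
  have hnh := TopologicalSpace.nhds_generateFrom
    (g := {S : Set K | ∃ a, S = U a ∨ S = (U a)ᶜ}) (a := b)
  have hle : (𝒰 : Filter K) ≤ @nhds K
      (TopologicalSpace.generateFrom {S : Set K | ∃ a, S = U a ∨ S = (U a)ᶜ}) b := by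
    rw [hnh]
    refine le_iInf₂ fun s hs => ?_
    rw [Filter.le_principal_iff]
    obtain ⟨hbs, c, hc⟩ := hs
    rcases hc with hc | hc
    · rw [hc]
      rw [hc] at hbs
      exact (key c).mpr hbs
    · rw [hc]
      rw [hc] at hbs
      exact Ultrafilter.compl_mem_iff_notMem.mpr (fun h => hbs ((key c).mp h))
  exact hle

end Pool.Agent.Helper332.CPBTop
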