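import Mathlib
import Pool.Agent.Helper332.CPB.TopDefs
import Pool.Agent.Helper332.CPB.P_compact_U

set_option autoImplicit false

namespace Pool.Agent.Helper332.CPBTop

open Set Topology


theorem lc_Sp {K : Type} [LinearOrder K] [WellFoundedLT K] (U : K → Set K) (hU : IsSystem U) :
    WeaklyLocallyCompactSpace (Sp U) :=
  ⟨fun x => ⟨U x, compact_U U hU x, (isOpen_U U x).mem_nhds (hU.1 x)⟩⟩

end Pool.Agent.Helper332.CPBTop
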