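import Mathlib
import Pool.Agent.Helper332.CPB.TopDefs
import Pool.Agent.Helper332.CPB.P_compact_U

set_option autoImplicit false

namespace Pool.Agent.Helper332.CPBTop

open Set Topology


theorem step_continuous {K : Type} [LinearOrder K] [WellFoundedLT K] (U : K → Set K)
    (hU : IsSystem U) (S : Finset K) (g : K → ℝ) (q : ℝ)
    (h1 : ∀ x x' : K, (∀ y ∈ S, (x ∈ U y ↔ x' ∈ U y)) → g x = g x')
    (h2 : ∀ x : K, (∀ y ∈ S, x ∉ U y) → g x = q) (f : OnePoint (Sp U) → ℝ)
    (hf : ∀ x : K, f (OnePoint.some (X := Sp U) x) = g x) (hf' : f OnePoint.infty = q) :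
    Continuous f := by
  classical
  obtain ⟨V, hVd⟩ : ∃ V : K → Set (Sp U), V = fun y => U y := ⟨_, rfl⟩
  have hVo : ∀ y, IsOpen (V y) := by rw [hVd]; exact isOpen_U U
  have hVc : ∀ y, IsClosed (V y) := by rw [hVd]; exact isClosed_U U
  have hVk : ∀ y, IsCompact (V y) := by rw [hVd]; exact compact_U U hU
  have hVm : ∀ (x : K) y, (x : Sp U) ∈ V y ↔ x ∈ U y := by
    intro x y; rw [hVd]; exact Iff.rfl
  rw [OnePoint.continuous_iff]
  constructor
  · rw [hf']
    have hcl : IsClosed (⋃ y ∈ S, V y) :=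
      Set.Finite.isClosed_biUnion S.finite_toSet (fun y _ => hVc y)
    have hcp : IsCompact (⋃ y ∈ S, V y) :=
      S.isCompact_biUnion (fun y _ => hVk y)
    have hmem := hcp.compl_mem_coclosedCompact_of_isClosed hcl
    refine Filter.Tendsto.congr' ?_ tendsto_const_nhds
    filter_upwards [hmem] with x hx
    have hx' : ∀ y ∈ S, (x : K) ∉ U y := by
      intro y hy hxy
      apply hx
      rw [mem_iUnion₂]
      exact ⟨y, hy, (hVm x y).2 hxy⟩
    exact ((hf x).trans (h2 x hx')).symm
  · have hloc : IsLocallyConstant (fun x : Sp U => f (OnePoint.some x)) := by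
      rw [IsLocallyConstant.iff_exists_open]
      intro x
      have hN : ∀ y, ∃ N : Set (Sp U), IsOpen N ∧ x ∈ N ∧ ∀ x' ∈ N, (x' ∈ V y ↔ x ∈ V y) := by
        intro y
        by_cases h : x ∈ V y
        · exact ⟨V y, hVo y, h, fun x' hx' => ⟨fun _ => h, fun _ => hx'⟩⟩
        · exact ⟨(V y)ᶜ, (hVc y).isOpen_compl, h,
            fun x' hx' => ⟨fun h' => absurd h' hx', fun h' => absurd h' h⟩⟩
      choose N hN1 hN2 hN3 using hN
      refine ⟨⋂ y ∈ S, N y, isOpen_biInter_finset (fun y _ => hN1 y), ?_, ?_⟩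
      · rw [mem_iInter₂]
        intro y _
        exact hN2 y
      · intro x' hx'
        rw [mem_iInter₂] at hx'
        have e := h1 x' x (fun y hy =>
          (hVm x' y).symm.trans ((hN3 y x' (hx' y hy)).trans (hVm x y)))
        exact (hf x').trans (e.trans (hf x).symm)
    exact hloc.continuous

end Pool.Agent.Helper332.CPBTop
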