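import Mathlib
import Pool.Agent.Helper332.CPB.TopDefs
import Pool.Agent.Helper332.CPB.P_step_continuous

set_option autoImplicit false

namespace Pool.Agent.Helper332.CPBTop

open Set Topology


theorem many {K : Type} [LinearOrder K] [WellFoundedLT K] [Nonempty K] (U : K → Set K)
    (hU : IsSystem U) (hc : IsCapturing U) (g : K → C(OnePoint (Sp U), ℝ))
    (S : K → Finset (OnePoint (Sp U))) (ε : K → ℝ) (hε : ∀ ξ, 0 < ε ξ) :
    ∃ f : C(OnePoint (Sp U), ℝ), ¬ {ξ : K | ∀ x ∈ S ξ, |f x - g ξ x| < ε ξ}.Countable := by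
  classical
  let pt : K → OnePoint (Sp U) := fun x => OnePoint.some (X := Sp U) x
  have hpt : Function.Injective pt := fun x y h => OnePoint.coe_injective (X := Sp U) h
  have hr0 : ∀ ξ x, ∃ r : ℚ, |g ξ x - r| < ε ξ := fun ξ x => exists_rat_near _ (hε ξ)
  choose r hr using hr0
  let Q : K → Finset K := fun ξ => insert ξ ((S ξ).preimage pt hpt.injOn)
  let Φ : K → Finset (K × ℕ) := fun ξ => (Q ξ).image (fun x => (x, Encodable.encode (r ξ (pt x))))
  have hΦ : ∀ ξ x c, (x, c) ∈ Φ ξ → c = Encodable.encode (r ξ (pt x)) := by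
    intro ξ x c h
    obtain ⟨y, -, hy⟩ := Finset.mem_image.1 h
    simp only [Prod.mk.injEq] at hy
    obtain ⟨rfl, rfl⟩ := hy
    rfl
  have hΦm : ∀ ξ x, x ∈ Q ξ → (x, Encodable.encode (r ξ (pt x))) ∈ Φ ξ := fun ξ x hx =>
    Finset.mem_image_of_mem _ hx
  obtain ⟨w, hw, hws⟩ := hc Φ (fun ξ => ⟨_, hΦm ξ ξ (Finset.mem_insert_self _ _)⟩)
    (fun ξ x c c' h h' => (hΦ ξ x c h).trans (hΦ ξ x c' h').symm)
  let P : K → ℕ → Prop := fun x c => ∃ y, (y, c) ∈ w ∧ x ∈ U y ∧ ∀ z d, (z, d) ∈ w → z < y → x ∉ U z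
  have hPu : ∀ x c c', P x c → P x c' → c = c' := by
    rintro x c c' ⟨y, hy1, hy2, hy3⟩ ⟨y', hy1', hy2', hy3'⟩
    rcases lt_trichotomy y y' with h | h | h
    · exact absurd hy2 (hy3' y c hy1 h)
    · subst h; exact hw _ _ _ hy1 hy1'
    · exact absurd hy2' (hy3 y' c' hy1' h)
  have hT : ¬ {ξ | ∀ x c, (x, c) ∈ Φ ξ → P x c}.Countable := by
    intro hcount
    rcases Set.eq_empty_or_nonempty {ξ | ∀ x c, (x, c) ∈ Φ ξ → P x c} with he | hne
    · obtain ⟨ξ, -, hξ⟩ := hws (fun _ => Classical.arbitrary K)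
      have : ξ ∈ {ξ | ∀ x c, (x, c) ∈ Φ ξ → P x c} := hξ
      rw [he] at this
      exact this
    · obtain ⟨s, hs⟩ := hcount.exists_eq_range hne
      obtain ⟨ξ, hξ1, hξ⟩ := hws s
      have : ξ ∈ {ξ | ∀ x c, (x, c) ∈ Φ ξ → P x c} := hξ
      rw [hs] at this
      obtain ⟨n, hn⟩ := this
      exact hξ1 n hn
  have hTq : ∃ q : ℚ, ¬ {ξ | (∀ x c, (x, c) ∈ Φ ξ → P x c) ∧ r ξ OnePoint.infty = q}.Countable := by
    by_contra hcon
    push Not at hcon
    refine hT ((Set.countable_iUnion hcon).mono ?_)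
    intro ξ hξ
    exact Set.mem_iUnion.2 ⟨r ξ OnePoint.infty, hξ, rfl⟩
  obtain ⟨q, hq⟩ := hTq
  let Gp : (ℕ → Prop) → ℝ := fun p =>
    if h : ∃ c, p c then (((Encodable.decode h.choose : Option ℚ).getD 0 : ℚ) : ℝ) else (q : ℝ)
  let G : K → ℝ := fun x => Gp (P x)
  have hG1 : ∀ x (a : ℚ), P x (Encodable.encode a) → G x = a := by
    intro x a h
    have hex : ∃ c, P x c := ⟨_, h⟩
    show (if h : ∃ c, P x c then (((Encodable.decode h.choose : Option ℚ).getD 0 : ℚ) : ℝ)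
      else (q : ℝ)) = a
    rw [dif_pos hex]
    have e : hex.choose = Encodable.encode a := hPu x _ _ hex.choose_spec h
    rw [e, Encodable.encodek]
    rfl
  let f : OnePoint (Sp U) → ℝ := fun p => Option.elim p (q : ℝ) G
  have hcont : Continuous f := by
    refine step_continuous U hU (w.image Prod.fst) G q ?_ ?_ f (fun x => rfl) rfl
    · intro x x' h
      have hP : P x = P x' := by
        funext c
        refine propext ⟨?_, ?_⟩
        · rintro ⟨y, hy1, hy2, hy3⟩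
          refine ⟨y, hy1, (h y (Finset.mem_image_of_mem Prod.fst hy1)).1 hy2, fun z d hz hzy hx => ?_⟩
          exact hy3 z d hz hzy ((h z (Finset.mem_image_of_mem Prod.fst hz)).2 hx)
        · rintro ⟨y, hy1, hy2, hy3⟩
          refine ⟨y, hy1, (h y (Finset.mem_image_of_mem Prod.fst hy1)).2 hy2, fun z d hz hzy hx => ?_⟩
          exact hy3 z d hz hzy ((h z (Finset.mem_image_of_mem Prod.fst hz)).1 hx)
      show Gp (P x) = Gp (P x')
      rw [hP]
    · intro x h
      have hn : ¬ ∃ c, P x c := by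
        rintro ⟨c, y, hy1, hy2, -⟩
        exact h y (Finset.mem_image_of_mem Prod.fst hy1) hy2
      exact dif_neg hn
  refine ⟨⟨f, hcont⟩, fun hcount => hq (hcount.mono ?_)⟩
  rintro ξ ⟨hξ, hξq⟩ x hx
  show |f x - g ξ x| < ε ξ
  rw [abs_sub_comm]
  have h1 := hr ξ x
  have h2 : f x = r ξ x := by
    induction x using OnePoint.rec with
    | infty =>
      show (q : ℝ) = _
      rw [hξq]
    | coe x =>
      show G x = _
      have hxQ : ∀ y : K, pt y ∈ S ξ → y ∈ Q ξ := fun y hy =>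
        Finset.mem_insert_of_mem (Finset.mem_preimage.2 hy)
      exact hG1 x _ (hξ x _ (hΦm ξ x (hxQ x hx)))
  rw [h2]
  exact h1

end Pool.Agent.Helper332.CPBTop
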