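import Mathlib
import Pool.Agent.Helper332.CPB.TopDefs

set_option autoImplicit false

namespace Pool.Agent.Helper332.CPBTop

open Set Topology


theorem pbasic {X : Type} [TopologicalSpace X] (B : Set C(X, ℝ)) (hB : POpen B) (g : C(X, ℝ))
    (hg : g ∈ B) : ∃ (S : Finset X) (ε : ℝ), 0 < ε ∧ ∀ f : C(X, ℝ),
      (∀ x ∈ S, |f x - g x| < ε) → f ∈ B := by
  classical
  obtain ⟨V, hV, rfl⟩ := isOpen_induced_iff.mp hB
  have hg' : (g : X → ℝ) ∈ V := hg
  obtain ⟨I, u, hu, hIu⟩ := isOpen_pi_iff.mp hV _ hg'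
  have key : ∃ ε : ℝ, 0 < ε ∧ ∀ x ∈ I, Metric.ball (g x) ε ⊆ u x := by
    clear hIu
    induction I using Finset.induction_on with
    | empty => exact ⟨1, one_pos, by simp⟩
    | insert a s _ ih =>
      obtain ⟨ε, hε, h⟩ := ih (fun x hx => hu x (Finset.mem_insert_of_mem hx))
      obtain ⟨ho, hm⟩ := hu a (Finset.mem_insert_self _ _)
      obtain ⟨δ, hδ, hb⟩ := Metric.isOpen_iff.mp ho _ hm
      refine ⟨min ε δ, lt_min hε hδ, ?_⟩
      intro x hx
      rcases Finset.mem_insert.mp hx with rfl | hx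
      · exact (Metric.ball_subset_ball (min_le_right _ _)).trans hb
      · exact (Metric.ball_subset_ball (min_le_left _ _)).trans (h x hx)
  obtain ⟨ε, hε, h⟩ := key
  refine ⟨I, ε, hε, fun f hf => hIu ?_⟩
  intro x hx
  apply h x hx
  rw [Metric.mem_ball, Real.dist_eq]
  exact hf x hx

end Pool.Agent.Helper332.CPBTop
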