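import Mathlib
import Pool.Agent.Helper332.CPB.TopDefs
import Pool.Agent.Helper332.CPB.P_pbasic

set_option autoImplicit false

namespace Pool.Agent.Helper332.CPBTop

open Set Topology


theorem pos_finite {X : Type} [TopologicalSpace X] [CompactSpace X] [T2Space X]
    (B : Set C(X, ℝ)) (hB : POpen B) (hne : B.Nonempty) : {x : X | ∀ f ∈ B, 0 < f x}.Finite := by
  obtain ⟨g, hg⟩ := hne
  obtain ⟨S, ε, hε, h⟩ := pbasic B hB g hg
  apply S.finite_toSet.subset
  intro x hx
  by_contra hxS
  obtain ⟨χ, h0, h1, -⟩ := exists_continuous_zero_one_of_isClosed (s := (S : Set X)) (t := {x})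
    S.finite_toSet.isClosed isClosed_singleton (Set.disjoint_singleton_right.2 hxS)
  have hf : (g - ContinuousMap.const X (g x) * χ) ∈ B := by
    apply h
    intro y hy
    have hy0 : χ y = 0 := h0 hy
    simp [hy0, hε]
  have h2 : 0 < (g - ContinuousMap.const X (g x) * χ) x := hx _ hf
  have h3 : χ x = 1 := h1 rfl
  simp [h3] at h2

end Pool.Agent.Helper332.CPBTop
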