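import Mathlib
import Pool.Agent.Helper332.CPB.TopDefs

set_option autoImplicit false

namespace Pool.Agent.Helper332.CPBTop

open Set Topology


theorem pos_open {X : Type} [TopologicalSpace X] (x : X) : POpen {f : C(X, ℝ) | 0 < f x} := by
  unfold POpen
  rw [isOpen_induced_iff]
  exact ⟨{φ : X → ℝ | 0 < φ x}, isOpen_lt continuous_const (continuous_apply x), rfl⟩

end Pool.Agent.Helper332.CPBTop
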