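import Mathlib
import Pool.Agent.Helper332.CPB.TopDefs
import Pool.Agent.Helper332.CPB.P_pbasic
import Pool.Agent.Helper332.CPB.P_pos_open
import Pool.Agent.Helper332.CPB.P_pos_finite
import Pool.Agent.Helper332.CPB.P_many

set_option autoImplicit false

namespace Pool.Agent.Helper332.CPBTop

open Set Topology


theorem no_base {K : Type} [LinearOrder K] [WellFoundedLT K] [Nonempty K] (U : K → Set K)
    (hU : IsSystem U) (hc : IsCapturing U) (hcpt : CompactSpace (OnePoint (Sp U)))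
    (ht2 : T2Space (OnePoint (Sp U))) (𝓑 : Set (Set C(OnePoint (Sp U), ℝ)))
    (h1 : ∀ B ∈ 𝓑, POpen B ∧ B.Nonempty)
    (h2 : ∀ V : Set C(OnePoint (Sp U), ℝ), POpen V → V.Nonempty → ∃ B ∈ 𝓑, B ⊆ V)
    (h3 : ∀ f : C(OnePoint (Sp U), ℝ), {B ∈ 𝓑 | f ∈ B}.Countable) : False := by
  let pt : K → OnePoint (Sp U) := fun ξ => OnePoint.some (X := Sp U) ξ
  have hpt : Function.Injective pt := OnePoint.coe_injective
  have hB : ∀ ξ, ∃ B ∈ 𝓑, B ⊆ {f : C(OnePoint (Sp U), ℝ) | 0 < f (pt ξ)} := fun ξ =>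
    h2 _ (pos_open (pt ξ)) ⟨1, by simp⟩
  choose B hBmem hBsub using hB
  choose g hg using fun ξ => (h1 _ (hBmem ξ)).2
  choose S ε hε hS using fun ξ => pbasic (B ξ) (h1 _ (hBmem ξ)).1 (g ξ) (hg ξ)
  obtain ⟨f, hf⟩ := many U hU hc g S ε hε
  apply hf
  have hfin : ∀ B0 ∈ 𝓑, {ξ : K | B ξ = B0}.Finite := by
    intro B0 hB0
    have h4 := pos_finite B0 (h1 _ hB0).1 (h1 _ hB0).2
    refine (h4.preimage hpt.injOn).subset ?_
    intro ξ hξ f0 hf0
    have hξ' : B ξ = B0 := hξ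
    rw [← hξ'] at hf0
    exact hBsub ξ hf0
  refine ((h3 f).biUnion (t := fun B0 _ => {ξ : K | B ξ = B0})
    (fun B0 hB0 => (hfin B0 hB0.1).countable)).mono ?_
  intro ξ hξ
  simp only [Set.mem_iUnion]
  exact ⟨B ξ, ⟨hBmem ξ, hS ξ f hξ⟩, rfl⟩

end Pool.Agent.Helper332.CPBTop
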