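import Mathlib
import Pool.Agent.Helper332.CPB.TopDefs

set_option autoImplicit false

namespace Pool.Agent.Helper332.CPBTop

open Set Topology


theorem scattered {K : Type} [LinearOrder K] [WellFoundedLT K] (U : K → Set K) (hU : IsSystem U)
    (s : Set (OnePoint (Sp U))) (hs : s.Nonempty) :
    ∃ x ∈ s, ∃ V : Set (OnePoint (Sp U)), IsOpen V ∧ V ∩ s = {x} := by
  by_cases h : ∃ x : K, (OnePoint.some (X := Sp U) x) ∈ s
  · have hne : {x : K | (OnePoint.some (X := Sp U) x) ∈ s}.Nonempty := h
    have hwf : WellFounded ((· < ·) : K → K → Prop) := wellFounded_lt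
    set a : K := hwf.min {x : K | (OnePoint.some (X := Sp U) x) ∈ s} hne with ha
    have ha1 : (OnePoint.some (X := Sp U) a) ∈ s := hwf.min_mem _ hne
    have ha2 : ∀ y : K, (OnePoint.some (X := Sp U) y) ∈ s → a ≤ y := by
      intro y hy
      by_contra hlt
      exact hwf.not_lt_min {x : K | (OnePoint.some (X := Sp U) x) ∈ s} hy (lt_of_not_ge hlt)
    have key : ∀ y' : K, y' ∈ U a → (OnePoint.some (X := Sp U) y') ∈ s →
        (OnePoint.some (X := Sp U) y') = OnePoint.some (X := Sp U) a := by
      intro y' h1 h2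
      have h3 : y' = a := le_antisymm (hU.2.1 a y' h1) (ha2 y' h2)
      exact congrArg (OnePoint.some (X := Sp U)) h3
    refine ⟨OnePoint.some (X := Sp U) a, ha1, (OnePoint.some (X := Sp U)) '' (U a), ?_, ?_⟩
    · exact OnePoint.isOpen_image_coe.2 (isOpen_U U a)
    · ext z
      simp only [Set.mem_inter_iff, Set.mem_singleton_iff]
      constructor
      · rintro ⟨⟨y, hy, rfl⟩, hs'⟩
        exact key y hy hs'
      · rintro rfl
        exact ⟨⟨a, hU.1 a, rfl⟩, ha1⟩
  · push Not at h
    obtain ⟨z, hz⟩ := hs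
    refine ⟨z, hz, Set.univ, isOpen_univ, ?_⟩
    have hinf : ∀ y ∈ s, y = OnePoint.infty := by
      intro y hy
      induction y using OnePoint.rec with
      | infty => rfl
      | coe y => exact absurd hy (h y)
    rw [Set.univ_inter]
    ext y
    rw [Set.mem_singleton_iff]
    constructor
    · intro hy
      rw [hinf y hy, hinf z hz]
    · rintro rfl
      exact hz

end Pool.Agent.Helper332.CPBTop
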