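import Mathlib
import Pool.Agent.Helper332.CPB.TopDefs

set_option autoImplicit false

namespace Pool.Agent.Helper332.CPBTop

open Set Topology


theorem t2_Sp_aux {K : Type} [LinearOrder K] (U : K → Set K) (hU : IsSystem U) (x y : K)
    (h : x < y) : ∃ u v : Set (Sp U), IsOpen u ∧ IsOpen v ∧ x ∈ u ∧ y ∈ v ∧ Disjoint u v :=
  ⟨U x, (U x)ᶜ, isOpen_U U x, (isClosed_U U x).isOpen_compl, hU.1 x,
    fun hy => absurd (hU.2.1 x y hy) (not_le.mpr h), disjoint_compl_right⟩

theorem t2_Sp {K : Type} [LinearOrder K] (U : K → Set K) (hU : IsSystem U) : T2Space (Sp U) := by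
  refine ⟨fun x y hxy => ?_⟩
  change K at x
  change K at y
  rcases lt_or_gt_of_ne (α := K) hxy with h | h
  · exact t2_Sp_aux U hU x y h
  · obtain ⟨u, v, hu, hv, hx, hy, hd⟩ := t2_Sp_aux U hU y x h
    exact ⟨v, u, hv, hu, hy, hx, hd.symm⟩

end Pool.Agent.Helper332.CPBTop
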