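import Mathlib
import Pool.Agent.Helper332.CPB.P_t2_Sp
import Pool.Agent.Helper332.CPB.P_lc_Sp
import Pool.Agent.Helper332.CPB.P_scattered
import Pool.Agent.Helper332.CPB.P_no_base

/-!
# The one-point compactification of the space of a capturing system
-/

set_option autoImplicit false

namespace Pool.Agent.Helper332.CPBTop

open Set Topology

/-- There is a capturing system of initial neighbourhoods on some well-ordered set. -/
def CapturingSystem : Prop :=
  ∃ (K : Type) (_ : LinearOrder K) (_ : WellFoundedLT K) (_ : Nonempty K) (U : K → Set K),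
    IsSystem U ∧ IsCapturing U

/-- A capturing system gives a scattered compact space `X` such that no `π`-base of `C_p(X)` is
point-countable. -/
theorem space_of_system (h : CapturingSystem) :
    ∃ (X : Type) (_ : TopologicalSpace X) (_ : T2Space X) (_ : CompactSpace X),
      (∀ s : Set X, s.Nonempty → ∃ x ∈ s, ∃ U : Set X, IsOpen U ∧ U ∩ s = {x}) ∧
      ¬ ∃ 𝓑 : Set (Set C(X, ℝ)),
        (∀ B ∈ 𝓑, POpen B ∧ B.Nonempty) ∧
        (∀ U : Set C(X, ℝ), POpen U → U.Nonempty → ∃ B ∈ 𝓑, B ⊆ U) ∧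
        (∀ f : C(X, ℝ), {B ∈ 𝓑 | f ∈ B}.Countable) := by
  obtain ⟨K, _, _, _, U, hU, hc⟩ := h
  have h1 : T2Space (Sp U) := t2_Sp U hU
  have h2 : WeaklyLocallyCompactSpace (Sp U) := lc_Sp U hU
  have h3 : T2Space (OnePoint (Sp U)) := inferInstance
  have h4 : CompactSpace (OnePoint (Sp U)) := inferInstance
  refine ⟨OnePoint (Sp U), inferInstance, h3, h4, fun s hs => scattered U hU s hs, ?_⟩
  rintro ⟨𝓑, hb1, hb2, hb3⟩
  exact no_base U hU hc h4 h3 𝓑 hb1 hb2 hb3

end Pool.Agent.Helper332.CPBTop
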